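import Pool.Agent.H724.DL.Stm

set_option autoImplicit false

namespace Pool.Agent.H722.DL

open Pool.Agent.H724.DL

theorem foldl_none {α σ : Type} (f : Option σ → α → Option σ) (hf : ∀ a, f none a = none)
    (w : List α) : w.foldl f none = none := by
  induction w with
  | nil => rfl
  | cons a w ih => rw [List.foldl_cons, hf, ih]

theorem take_ok {α σ : Type} (f : Option σ → α → Option σ) (hf : ∀ a, f none a = none)
    (s : Option σ) (u v : List α) (h : ∀ w, Sh w u v → w.foldl f s ≠ none) (n m : ℕ) :
    ∀ w, Sh w (u.take n) (v.take m) → w.foldl f s ≠ none := by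
  intro w hw hn
  have h1 := hw.append (Sh.concat (u.drop n) (v.drop m))
  rw [List.take_append_drop, List.take_append_drop] at h1
  refine h _ h1 ?_
  rw [List.foldl_append, hn, foldl_none f hf]

theorem pre_take {α : Type} (U : ℕ → α) {n T : ℕ} (h : n ≤ T) : (pre U T).take n = pre U n := by
  unfold pre
  rw [← List.map_take, List.take_range, min_eq_left h]

theorem pre_getD {α : Type} (u : List α) (a0 : α) {T : ℕ} (h : T ≤ u.length) :
    pre (fun i => u.getD i a0) T = u.take T := by
  refine List.ext_getElem ?_ fun i h1 h2 => ?_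
  · unfold pre
    rw [List.length_map, List.length_range, List.length_take, min_eq_left h]
  · unfold pre at h1 ⊢
    rw [List.length_map, List.length_range] at h1
    rw [List.getElem_map, List.getElem_range, List.getElem_take,
      List.getD_eq_getElem u a0 (by omega)]

/-- the pairs of infinite words which are good up to the length `T` -/
def Cg {α σ : Type} (f : Option σ → α → Option σ) (s : σ) (T : ℕ) : Set (ℕ → α × α) :=
  {F | ∀ w, Sh w (pre (fun i => (F i).1) T) (pre (fun i => (F i).2) T) →
    w.foldl f (some s) ≠ none}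

theorem Cg_anti {α σ : Type} (f : Option σ → α → Option σ) (hf : ∀ a, f none a = none) (s : σ)
    {T T' : ℕ} (h : T ≤ T') : Cg f s T' ⊆ Cg f s T := by
  intro F hF
  have h1 := take_ok f hf (some s) _ _ hF T T
  rw [pre_take _ h, pre_take _ h] at h1
  exact h1

theorem pre_congr {α : Type} {U V : ℕ → α} {T : ℕ} (h : ∀ i < T, U i = V i) :
    pre U T = pre V T := by
  unfold pre
  exact List.map_congr_left fun i hi => h i (List.mem_range.1 hi)

theorem c : S_C := by
  intro α σ _ _ f hf h
  obtain ⟨_, u1, _, hu1, _, _⟩ := h 1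
  obtain ⟨a0, ha0⟩ : ∃ a : α, a ∈ u1 := List.exists_mem_of_length_pos hu1
  have hG : ∀ T, ∃ s, (Cg f s T).Nonempty := by
    intro T
    obtain ⟨s, u, v, hu, hv, hw⟩ := h T
    refine ⟨s, fun i => (u.getD i a0, v.getD i a0), ?_⟩
    intro w hsh
    simp only [pre_getD u a0 hu, pre_getD v a0 hv] at hsh
    exact take_ok f hf (some s) u v hw T T w hsh
  obtain ⟨s, hs⟩ : ∃ s, ∀ T, (Cg f s T).Nonempty := by
    by_contra hc
    push Not at hc
    choose t ht using hc
    obtain ⟨B, hB⟩ := (Set.finite_range t).bddAbove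
    obtain ⟨s, hs⟩ := hG B
    have h1 : t s ≤ B := hB ⟨s, rfl⟩
    have h2 := hs.mono (Cg_anti f hf s h1)
    rw [ht s] at h2
    exact Set.not_nonempty_empty h2
  letI : TopologicalSpace (α × α) := ⊥
  haveI : DiscreteTopology (α × α) := ⟨rfl⟩
  have hcl : ∀ T, IsClosed (Cg f s T) := by
    intro T
    have e : Cg f s T = (fun (F : ℕ → α × α) (i : Fin T) => F i) ⁻¹'
        ((fun (F : ℕ → α × α) (i : Fin T) => F i) '' Cg f s T) := by
      refine Set.Subset.antisymm (Set.subset_preimage_image _ _) ?_
      rintro F ⟨F', hF', he⟩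
      have h1 : ∀ i < T, F' i = F i := fun i hi => congrFun he ⟨i, hi⟩
      have h2 : pre (fun i => (F' i).1) T = pre (fun i => (F i).1) T :=
        pre_congr fun i hi => by rw [h1 i hi]
      have h3 : pre (fun i => (F' i).2) T = pre (fun i => (F i).2) T :=
        pre_congr fun i hi => by rw [h1 i hi]
      intro w hw
      rw [← h2, ← h3] at hw
      exact hF' w hw
    rw [e]
    refine IsClosed.preimage ?_ (isClosed_discrete _)
    exact continuous_pi fun i => continuous_apply _
  obtain ⟨F, hF⟩ := IsCompact.nonempty_iInter_of_sequence_nonempty_isCompact_isClosed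
    (fun T => Cg f s T) (fun T => Cg_anti f hf s (Nat.le_succ T)) hs (hcl 0).isCompact hcl
  refine ⟨s, fun i => (F i).1, fun i => (F i).2, ?_⟩
  intro n m w hw
  have h1 : F ∈ Cg f s (max n m) := Set.mem_iInter.1 hF _
  have h2 := take_ok f hf (some s) _ _ h1 n m
  rw [pre_take _ (le_max_left n m), pre_take _ (le_max_right n m)] at h2
  exact h2 w hw

end Pool.Agent.H722.DL
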