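import Pool.Agent.H724.DL.Stm

set_option autoImplicit false

namespace Pool.Agent.H722.DL

open Pool.Agent.H724.DL

theorem tabE_primrec (L : List ℕ) (s' k : ℕ) :
    Primrec (fun p : (ℕ × ℕ) × ℕ => tabE L s' k p.1.1 p.1.2 p.2) := by
  have hn : Primrec (fun p : (ℕ × ℕ) × ℕ => p.1.1) := Primrec.fst.comp Primrec.fst
  have hx : Primrec (fun p : (ℕ × ℕ) × ℕ => p.1.2) := Primrec.snd.comp Primrec.fst
  have ha : Primrec (fun p : (ℕ × ℕ) × ℕ => p.2) := Primrec.snd
  have hd : Primrec (fun p : (ℕ × ℕ) × ℕ => p.1.2 / s') :=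
    Primrec.nat_div.comp hx (Primrec.const s')
  have hm : Primrec (fun p : (ℕ × ℕ) × ℕ => p.1.2 % s') :=
    Primrec.nat_mod.comp hx (Primrec.const s')
  have hi : Primrec (fun p : (ℕ × ℕ) × ℕ => if p.1.2 / s' = p.1.1 then 1 else 0) :=
    Primrec.ite (Primrec.eq.comp hd hn) (Primrec.const 1) (Primrec.const 0)
  have hj : Primrec (fun p : (ℕ × ℕ) × ℕ =>
      (p.1.2 % s' * k + p.2) * 2 + (if p.1.2 / s' = p.1.1 then 1 else 0)) :=
    Primrec.nat_add.comp (Primrec.nat_mul.comp (Primrec.nat_add.comp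
      (Primrec.nat_mul.comp hm (Primrec.const k)) ha) (Primrec.const 2)) hi
  have hE : Primrec (fun p : (ℕ × ℕ) × ℕ => L.getD
      ((p.1.2 % s' * k + p.2) * 2 + (if p.1.2 / s' = p.1.1 then 1 else 0)) 0) :=
    (Primrec.list_getD 0).comp (Primrec.const L) hj
  have hE3 := Primrec.nat_mod.comp hE (Primrec.const 3)
  have hA := Primrec.ite (Primrec.eq.comp hE3 (Primrec.const 0)) (Primrec.const 0)
    (Primrec.ite (Primrec.eq.comp hE3 (Primrec.const 1)) hd
      (Primrec.nat_min.comp (Primrec.nat_add.comp hd (Primrec.const 1))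
        (Primrec.nat_add.comp hn (Primrec.const 1))))
  exact Primrec.nat_add.comp (Primrec.nat_mul.comp hA (Primrec.const s'))
    (Primrec.nat_div.comp hE (Primrec.const 3))

theorem k1 : S_K1 := by
  intro L s' k
  refine Primrec.to_comp ?_
  have h1 : Primrec (fun n : ℕ => (List.range ((n + 2) * s')).map fun x =>
      (List.range k).map fun a => tabE L s' k n x a) := by
    refine Primrec.list_map ?_ ?_
    · exact Primrec.list_range.comp (Primrec.nat_mul.comp
        (Primrec.nat_add.comp Primrec.id (Primrec.const 2)) (Primrec.const s'))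
    · exact Primrec.list_map (α := ℕ × ℕ) (Primrec.const (List.range k)) (tabE_primrec L s' k)
  have h2 : Primrec (fun n : ℕ => (List.range (n + 2)).map fun i => i * s' + (s' - 1)) := by
    refine Primrec.list_map ?_ ?_
    · exact Primrec.list_range.comp (Primrec.nat_add.comp Primrec.id (Primrec.const 2))
    · exact Primrec.nat_add.comp (Primrec.nat_mul.comp Primrec.snd (Primrec.const s'))
        (Primrec.const (s' - 1))
  exact h1.pair h2

end Pool.Agent.H722.DL
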