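import Pool.Agent.H316.EM.Stm2
set_option autoImplicit false
namespace Pool.Agent.H722.EMN
open Pool.Agent.H316.EM

theorem nil_map {E : Type} [CommRing E] (σ : E ≃+* E) (n : ℕ) :
    (nilradical E ^ n).map σ = nilradical E ^ n := by
  rw [Ideal.map_pow]
  congr 1
  rw [show (nilradical E).map σ = (nilradical E).map (σ : E →+* E) from rfl, Ideal.map_comap_of_equiv]
  ext x
  rw [Ideal.mem_comap, mem_nilradical, mem_nilradical]
  exact IsNilpotent.map_iff σ.symm.injective

theorem nil_mem {E : Type} [CommRing E] (σ : E ≃+* E) (n : ℕ) (x : E) :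
    σ x ∈ nilradical E ^ n ↔ x ∈ nilradical E ^ n := by
  constructor
  · intro h
    have h1 : σ.symm (σ x) ∈ (nilradical E ^ n).map σ.symm := Ideal.mem_map_of_mem σ.symm h
    rw [nil_map, RingEquiv.symm_apply_apply] at h1
    exact h1
  · intro h
    have h1 : σ x ∈ (nilradical E ^ n).map σ := Ideal.mem_map_of_mem σ h
    rwa [nil_map] at h1

/-- the automorphism of the quotient -/
noncomputable def toW {E : Type} [CommRing E] (n : ℕ) :
    (E ≃+* E) →* ((E ⧸ (nilradical E ^ n)) ≃ₗ[ℤ] (E ⧸ (nilradical E ^ n))) where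
  toFun σ := (Ideal.quotientEquiv _ _ σ (nil_map σ n).symm).toAddEquiv.toIntLinearEquiv
  map_one' := by
    ext w
    obtain ⟨x, rfl⟩ := Ideal.Quotient.mk_surjective w
    rfl
  map_mul' σ τ := by
    ext w
    obtain ⟨x, rfl⟩ := Ideal.Quotient.mk_surjective w
    rfl

theorem toW_mk {E : Type} [CommRing E] (n : ℕ) (σ : E ≃+* E) (x : E) :
    toW n σ (Ideal.Quotient.mk _ x) = Ideal.Quotient.mk _ (σ x) := rfl

/-- multiplication by units -/
noncomputable def mulW {W : Type} [CommRing W] {Λ : Type} [CommGroup Λ] (γ : Λ →* W) :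
    Λ →* (W ≃ₗ[ℤ] W) where
  toFun l :=
    { toFun := fun w => γ l * w
      invFun := fun w => γ l⁻¹ * w
      left_inv := fun w => by
        show γ l⁻¹ * (γ l * w) = w
        rw [← mul_assoc, ← map_mul, inv_mul_cancel, map_one, one_mul]
      right_inv := fun w => by
        show γ l * (γ l⁻¹ * w) = w
        rw [← mul_assoc, ← map_mul, mul_inv_cancel, map_one, one_mul]
      map_add' := fun a b => mul_add _ _ _
      map_smul' := fun n w => by
        simp only [eq_intCast, Int.cast_id]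
        rw [mul_smul_comm] }
  map_one' := by
    ext w
    show γ 1 * w = w
    rw [map_one, one_mul]
  map_mul' a b := by
    ext w
    show γ (a * b) * w = γ a * (γ b * w)
    rw [map_mul, mul_assoc]

theorem mulW_apply {W : Type} [CommRing W] {Λ : Type} [CommGroup Λ] (γ : Λ →* W) (l : Λ) (w : W) :
    mulW γ l w = γ l * w := rfl

theorem char2 (a : KK) : a + a = 0 := by
  rw [← two_smul (ZMod 2) a, show (2 : ZMod 2) = 0 from rfl, zero_smul]

/-- the result of NIL in additive terms -/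
theorem nilres (hNIL : S_NIL) (E : Type) [CommRing E] [IsNoetherianRing E]
    (A₁ A₂ : Submodule (ZMod 2) KK) (v : KK → E)
    (hadd : ∀ a ∈ A₁, ∀ a' ∈ A₁, v (a + a') = v a * v a') (h0 : v 0 = 1)
    (hA₂ : ∀ a, a ∈ A₂ ↔ a ∈ A₁ ∧ v a = 1) (hnf : ¬ Fi A₂ A₁) :
    ∃ j : ℕ, 0 < j ∧ ∃ C₁ C₂ : Submodule (ZMod 2) KK, C₁ ≤ A₁ ∧ C₂ ≤ C₁ ∧ Fi C₁ A₁ ∧ ¬ Fi C₂ A₁ ∧
      (∀ a, a ∈ C₁ ↔ a ∈ A₁ ∧ v a - 1 ∈ nilradical E ^ j) ∧
      (∀ a, a ∈ C₂ ↔ a ∈ A₁ ∧ v a - 1 ∈ nilradical E ^ (j + 1)) := by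
  classical
  have hsq : ∀ a ∈ A₁, v a * v a = 1 := fun a ha => by rw [← hadd a ha a ha, char2, h0]
  let u : Multiplicative A₁.toAddSubgroup →* Eˣ :=
    { toFun := fun a => ⟨v (a.toAdd : KK), v (a.toAdd : KK), hsq _ a.toAdd.2, hsq _ a.toAdd.2⟩
      map_one' := by
        ext
        exact h0
      map_mul' := fun a b => by
        ext
        exact hadd _ a.toAdd.2 _ b.toAdd.2 }
  have hu : ∀ a, ((u a : Eˣ) : E) = v (a.toAdd : KK) := fun a => rfl
  have hidx : ∀ C : Submodule (ZMod 2) KK, ∀ K : Subgroup (Multiplicative A₁.toAddSubgroup),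
      (∀ a, a ∈ K ↔ (a.toAdd : KK) ∈ C) → K.index = C.toAddSubgroup.relIndex A₁.toAddSubgroup := by
    intro C K hK
    have : K = AddSubgroup.toSubgroup (C.toAddSubgroup.addSubgroupOf A₁.toAddSubgroup) := by
      ext a
      rw [hK]
      rfl
    rw [this, AddSubgroup.index_toSubgroup]
    rfl
  have hker : u.ker.index = 0 := by
    rw [hidx A₂ u.ker]
    · by_contra h
      exact hnf h
    · intro a
      rw [MonoidHom.mem_ker, hA₂, Units.ext_iff, hu]
      constructor
      · intro h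
        exact ⟨a.toAdd.2, h⟩
      · intro h
        exact h.2
  obtain ⟨j, hj, K₁, K₂, h1, h2, h3, h4⟩ := hNIL E (Multiplicative A₁.toAddSubgroup)
    (fun a => by
      apply Multiplicative.toAdd.injective
      apply Subtype.ext
      exact char2 _) u hker
  refine ⟨j, hj, ?_⟩
  -- convert subgroups to submodules
  have hconv : ∀ K : Subgroup (Multiplicative A₁.toAddSubgroup), ∃ C : Submodule (ZMod 2) KK,
      C ≤ A₁ ∧ ∀ a (ha : a ∈ A₁), a ∈ C ↔ Multiplicative.ofAdd (⟨a, ha⟩ : A₁.toAddSubgroup) ∈ K := by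
    intro K
    refine ⟨{ carrier := {a | ∃ ha : a ∈ A₁, Multiplicative.ofAdd (⟨a, ha⟩ : A₁.toAddSubgroup) ∈ K}
              zero_mem' := ⟨A₁.zero_mem, K.one_mem⟩
              add_mem' := ?_
              smul_mem' := ?_ }, ?_, ?_⟩
    · rintro a b ⟨ha, ha'⟩ ⟨hb, hb'⟩
      exact ⟨A₁.add_mem ha hb, K.mul_mem ha' hb'⟩
    · rintro c a ⟨ha, ha'⟩
      rcases (by decide : ∀ c : ZMod 2, c = 0 ∨ c = 1) c with rfl | rfl
      · refine ⟨by rw [zero_smul]; exact A₁.zero_mem, ?_⟩
        have : (Multiplicative.ofAdd (⟨(0 : ZMod 2) • a, by rw [zero_smul]; exact A₁.zero_mem⟩ : A₁.toAddSubgroup)) = 1 := by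
          apply Multiplicative.toAdd.injective
          apply Subtype.ext
          exact zero_smul _ _
        rw [this]
        exact K.one_mem
      · refine ⟨by rw [one_smul]; exact ha, ?_⟩
        have : (Multiplicative.ofAdd (⟨(1 : ZMod 2) • a, by rw [one_smul]; exact ha⟩ : A₁.toAddSubgroup)) =
            Multiplicative.ofAdd ⟨a, ha⟩ := by
          apply Multiplicative.toAdd.injective
          apply Subtype.ext
          exact one_smul _ _
        rw [this]
        exact ha'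
    · rintro a ⟨ha, _⟩
      exact ha
    · intro a ha
      constructor
      · rintro ⟨_, h⟩
        exact h
      · intro h
        exact ⟨ha, h⟩
  obtain ⟨C₁, hC₁, hC₁'⟩ := hconv K₁
  obtain ⟨C₂, hC₂, hC₂'⟩ := hconv K₂
  have hm1 : ∀ a, a ∈ C₁ ↔ a ∈ A₁ ∧ v a - 1 ∈ nilradical E ^ j := by
    intro a
    constructor
    · intro h
      refine ⟨hC₁ h, ?_⟩
      rw [hC₁' a (hC₁ h), h3] at h
      exact h
    · rintro ⟨h, h'⟩
      rw [hC₁' a h, h3]
      exact h'
  have hm2 : ∀ a, a ∈ C₂ ↔ a ∈ A₁ ∧ v a - 1 ∈ nilradical E ^ (j + 1) := by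
    intro a
    constructor
    · intro h
      refine ⟨hC₂ h, ?_⟩
      rw [hC₂' a (hC₂ h), h4] at h
      exact h
    · rintro ⟨h, h'⟩
      rw [hC₂' a h, h4]
      exact h'
  refine ⟨C₁, C₂, hC₁, ?_, ?_, ?_, hm1, hm2⟩
  · intro a ha
    rw [hm2] at ha
    rw [hm1]
    exact ⟨ha.1, Ideal.pow_le_pow_right (Nat.le_succ j) ha.2⟩
  · show C₁.toAddSubgroup.relIndex A₁.toAddSubgroup ≠ 0
    rw [← hidx C₁ K₁ (fun a => (hC₁' _ a.toAdd.2).symm)]
    exact h1
  · show ¬ (C₂.toAddSubgroup.relIndex A₁.toAddSubgroup ≠ 0)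
    rw [← hidx C₂ K₂ (fun a => (hC₂' _ a.toAdd.2).symm)]
    exact fun h => h h2

theorem core (hMK : S_MK) (hNIL : S_NIL) (E Λ : Type) [CommRing E] [IsNoetherianRing E] [CommGroup Λ]
    [Group.FG Λ] (γ : Λ →* E) (F : Finset E)
    (hF : AddSubgroup.closure {x : E | ∃ l, ∃ f ∈ F, x = γ l * f} = ⊤)
    (β : B →* (E ≃+* E)) (t : E ≃+* E) (htβ : ∀ b, t * β b * t⁻¹ = β (th b))
    (hβγ : ∀ b l, ∃ l', β b (γ l) = γ l') (htγ : ∀ l, ∃ l', t (γ l) = γ l')
    (htγ' : ∀ l, ∃ l', t⁻¹ (γ l) = γ l')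
    (A₁ A₂ : Submodule (ZMod 2) KK) (v : KK → E) (hle : A₁ ≤ AA) (hfi : Fi A₁ AA)
    (hB : ∀ b, ∀ a ∈ A₁, mB b a ∈ A₁) (hT : ∀ a, a ∈ A₁ ↔ tA a ∈ A₁)
    (hadd : ∀ a ∈ A₁, ∀ a' ∈ A₁, v (a + a') = v a * v a') (h0 : v 0 = 1)
    (hvβ : ∀ b, ∀ a ∈ A₁, β b (v a) = v (mB b a)) (hvt : ∀ a ∈ A₁, t (v a) = v (tA a))
    (hA₂ : ∀ a, a ∈ A₂ ↔ a ∈ A₁ ∧ v a = 1) (hnf : ¬ Fi A₂ AA) :
    ∃ (V : Type) (_ : AddCommGroup V) (_ : Module (ZMod 2) V), Nonempty (Dat 1 V) := by
  classical
  have hA₂le : A₂ ≤ A₁ := fun a ha => ((hA₂ a).1 ha).1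
  have hnf' : ¬ Fi A₂ A₁ := by
    intro h
    apply hnf
    show A₂.toAddSubgroup.relIndex AA.toAddSubgroup ≠ 0
    rw [← AddSubgroup.relIndex_mul_relIndex A₂.toAddSubgroup A₁.toAddSubgroup AA.toAddSubgroup hA₂le hle]
    exact mul_ne_zero h hfi
  obtain ⟨j, hj, C₁, C₂, hC₁le, hC₂le, hC₁, hC₂, hm1, hm2⟩ := nilres hNIL E A₁ A₂ v hadd h0 hA₂ hnf'
  -- the data
  let W := E ⧸ (nilradical E ^ (j + 1))
  let q : E →+* W := Ideal.Quotient.mk _
  let α : KK → W := fun a => q (v a - 1)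
  have hαadd : ∀ a ∈ C₁, ∀ a' ∈ C₁, α (a + a') = α a + α a' := by
    intro a ha a' ha'
    have h1 := (hm1 a).1 ha
    have h2 := (hm1 a').1 ha'
    show q (v (a + a') - 1) = q (v a - 1) + q (v a' - 1)
    rw [hadd a h1.1 a' h2.1, ← map_add]
    have h3 : v a * v a' - 1 = (v a - 1 + (v a' - 1)) + (v a - 1) * (v a' - 1) := by ring
    have h4 : q ((v a - 1) * (v a' - 1)) = 0 := by
      apply Ideal.Quotient.eq_zero_iff_mem.2
      apply Ideal.pow_le_pow_right (show j + 1 ≤ j + j by omega)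
      rw [pow_add]
      exact Ideal.mul_mem_mul h1.2 h2.2
    rw [h3, map_add, h4, add_zero]
  refine hMK W Λ (mulW ((q : E →* W).comp γ)) ((toW (j + 1)).comp β) (toW (j + 1) t) ?_ ?_ ?_ ?_ ?_ C₁ α
    (hC₁le.trans hle) ?_ ?_ ?_ hαadd ?_ ?_ ?_
  · intro b
    show toW (j + 1) t * toW (j + 1) (β b) * (toW (j + 1) t)⁻¹ = toW (j + 1) (β (th b))
    rw [← htβ, map_mul, map_mul, map_inv]
  · intro b l
    obtain ⟨l', hl'⟩ := hβγ b l
    refine ⟨l', ?_⟩
    rw [mul_inv_eq_iff_eq_mul]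
    ext w
    obtain ⟨x, rfl⟩ := Ideal.Quotient.mk_surjective w
    show q (β b (γ l * x)) = q (γ l') * q (β b x)
    rw [map_mul, map_mul, hl']
  · intro l
    obtain ⟨l', hl'⟩ := htγ l
    refine ⟨l', ?_⟩
    rw [mul_inv_eq_iff_eq_mul]
    ext w
    obtain ⟨x, rfl⟩ := Ideal.Quotient.mk_surjective w
    show q (t (γ l * x)) = q (γ l') * q (t x)
    rw [map_mul, map_mul, hl']
  · intro l
    obtain ⟨l', hl'⟩ := htγ' l
    refine ⟨l', ?_⟩
    rw [← map_inv]
    rw [show toW (j + 1) t = (toW (j + 1) t⁻¹)⁻¹ by rw [map_inv, inv_inv], mul_inv_eq_iff_eq_mul]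
    ext w
    obtain ⟨x, rfl⟩ := Ideal.Quotient.mk_surjective w
    show q (t⁻¹ (γ l * x)) = q (γ l') * q (t⁻¹ x)
    rw [map_mul, map_mul, hl']
  · refine ⟨F.image q, ?_⟩
    have h1 : AddSubgroup.map (q : E →+ W) (AddSubgroup.closure {x : E | ∃ l, ∃ f ∈ F, x = γ l * f}) = ⊤ := by
      rw [hF, ← AddMonoidHom.range_eq_map, AddMonoidHom.range_eq_top]
      exact Ideal.Quotient.mk_surjective
    rw [AddMonoidHom.map_closure] at h1
    rw [eq_top_iff, ← h1, AddSubgroup.closure_le]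
    rintro _ ⟨x, ⟨l, f, hf, rfl⟩, rfl⟩
    apply AddSubgroup.subset_closure
    exact ⟨l, q f, Finset.mem_image_of_mem _ hf, map_mul q _ _⟩
  · show C₁.toAddSubgroup.relIndex AA.toAddSubgroup ≠ 0
    rw [← AddSubgroup.relIndex_mul_relIndex C₁.toAddSubgroup A₁.toAddSubgroup AA.toAddSubgroup hC₁le hle]
    exact mul_ne_zero hC₁ hfi
  · intro b a ha
    have h := (hm1 a).1 ha
    rw [hm1]
    refine ⟨hB b a h.1, ?_⟩
    rw [← hvβ b a h.1, ← map_one (β b), ← map_sub, nil_mem]
    exact h.2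
  · intro a
    rw [hm1, hm1, ← hT]
    constructor
    · rintro ⟨h, h'⟩
      refine ⟨h, ?_⟩
      rw [← hvt a h, ← map_one t, ← map_sub, nil_mem]
      exact h'
    · rintro ⟨h, h'⟩
      refine ⟨h, ?_⟩
      rw [← hvt a h, ← map_one t, ← map_sub, nil_mem] at h'
      exact h'
  · intro b a ha
    have h := (hm1 a).1 ha
    show q (v (mB b a) - 1) = q (β b (v a - 1))
    rw [← hvβ b a h.1, map_sub (β b), map_one (β b)]
  · intro a ha
    have h := (hm1 a).1 ha
    show q (v (tA a) - 1) = q (t (v a - 1))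
    rw [← hvt a h.1, map_sub t, map_one t]
  · intro hfin
    apply hC₂
    show C₂.toAddSubgroup.relIndex A₁.toAddSubgroup ≠ 0
    rw [← AddSubgroup.relIndex_mul_relIndex C₂.toAddSubgroup C₁.toAddSubgroup A₁.toAddSubgroup hC₂le hC₁le]
    refine mul_ne_zero ?_ hC₁
    let α' : C₁.toAddSubgroup →+ W :=
      { toFun := fun a => α a
        map_zero' := by
          show q (v 0 - 1) = 0
          rw [h0, sub_self, map_zero]
        map_add' := fun a b => hαadd _ a.2 _ b.2 }
    have hker : α'.ker = C₂.toAddSubgroup.addSubgroupOf C₁.toAddSubgroup := by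
      ext a
      rw [AddMonoidHom.mem_ker, AddSubgroup.mem_addSubgroupOf]
      show q (v a - 1) = 0 ↔ (a : KK) ∈ C₂
      rw [hm2]
      constructor
      · intro h
        exact ⟨hC₁le a.2, Ideal.Quotient.eq_zero_iff_mem.1 h⟩
      · intro h
        exact Ideal.Quotient.eq_zero_iff_mem.2 h.2
    show (C₂.toAddSubgroup.addSubgroupOf C₁.toAddSubgroup).index ≠ 0
    rw [← hker, AddSubgroup.index_ker]
    have hfin' : (Set.range α').Finite := by
      apply hfin.subset
      rintro _ ⟨a, rfl⟩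
      exact ⟨a, a.2, rfl⟩
    have : Finite α'.range := hfin'.to_subtype
    have : Nonempty α'.range := ⟨0⟩
    exact Nat.card_pos.ne'



theorem n1 (E Λ N : Type) [CommRing E] [CommGroup Λ] [Group.FG Λ] [AddCommGroup N]
    (π : E →+* Module.End ℤ N) (hπ : Function.Injective π) (γ : Λ →* E) (S : Finset N)
    (hS : AddSubgroup.closure {x : N | ∃ l, ∃ s ∈ S, x = π (γ l) s} = ⊤) :
    IsNoetherianRing E ∧ ∃ F : Finset E, AddSubgroup.closure {x : E | ∃ l, ∃ f ∈ F, x = γ l * f} = ⊤ := by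
  classical
  let _ : Algebra (MonoidAlgebra ℤ Λ) E := (MonoidAlgebra.lift ℤ E Λ γ).toRingHom.toAlgebra
  have _ : IsNoetherianRing (MonoidAlgebra ℤ Λ) :=
    Algebra.FiniteType.isNoetherianRing ℤ (MonoidAlgebra ℤ Λ)
  let _ : Module E N := Module.compHom N π
  let _ : Module (MonoidAlgebra ℤ Λ) N := Module.compHom N (algebraMap (MonoidAlgebra ℤ Λ) E)
  have hof : ∀ l : Λ, algebraMap (MonoidAlgebra ℤ Λ) E (MonoidAlgebra.of ℤ Λ l) = γ l := fun l =>
    MonoidAlgebra.lift_of γ l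
  have hsm : ∀ (e : E) (n : N), e • n = π e n := fun e n => rfl
  have hsm2 : ∀ (p : MonoidAlgebra ℤ Λ) (n : N), p • n = (algebraMap (MonoidAlgebra ℤ Λ) E p) • n :=
    fun e n => rfl
  have _ : Module.Finite (MonoidAlgebra ℤ Λ) N := by
    refine ⟨⟨S, ?_⟩⟩
    rw [eq_top_iff]
    intro n _
    have hn : n ∈ AddSubgroup.closure {x : N | ∃ l, ∃ s ∈ S, x = π (γ l) s} := by
      rw [hS]; trivial
    have hle : AddSubgroup.closure {x : N | ∃ l, ∃ s ∈ S, x = π (γ l) s} ≤
        (Submodule.span (MonoidAlgebra ℤ Λ) (S : Set N)).toAddSubgroup := by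
      rw [AddSubgroup.closure_le]
      rintro x ⟨l, s, hs, rfl⟩
      show π (γ l) s ∈ Submodule.span (MonoidAlgebra ℤ Λ) (S : Set N)
      have : π (γ l) s = (MonoidAlgebra.of ℤ Λ l) • s := by
        rw [hsm2, hof, hsm]
      rw [this]
      exact Submodule.smul_mem _ _ (Submodule.subset_span hs)
    exact hle hn
  have _ : IsNoetherian (MonoidAlgebra ℤ Λ) (S → N) := inferInstance
  let Φ : E →ₗ[MonoidAlgebra ℤ Λ] (S → N) :=
    { toFun := fun e s => e • (s : N)
      map_add' := fun a b => by ext s; exact add_smul a b (s : N)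
      map_smul' := fun p e => by
        funext s
        show (p • e) • (s : N) = p • (e • (s : N))
        rw [hsm2, Algebra.smul_def, mul_smul] }
  have hΦ : Function.Injective Φ := by
    rw [injective_iff_map_eq_zero]
    intro e he
    have h1 : ∀ s ∈ S, π e s = 0 := fun s hs => congrFun he ⟨s, hs⟩
    apply hπ
    rw [map_zero]
    ext n
    have hn : n ∈ AddSubgroup.closure {x : N | ∃ l, ∃ s ∈ S, x = π (γ l) s} := by
      rw [hS]; trivial
    induction hn using AddSubgroup.closure_induction with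
    | mem x hx =>
      obtain ⟨l, s, hs, rfl⟩ := hx
      show (π e * π (γ l)) s = 0
      rw [← map_mul, mul_comm, map_mul]
      show π (γ l) (π e s) = 0
      rw [h1 s hs, map_zero]
    | zero => simp
    | add x y _ _ hx hy => rw [map_add, hx, hy, map_add]
    | neg x _ hx => rw [map_neg, hx, map_neg]
  have _ : IsNoetherian (MonoidAlgebra ℤ Λ) E := isNoetherian_of_injective Φ hΦ
  refine ⟨isNoetherian_of_tower (MonoidAlgebra ℤ Λ) inferInstance, ?_⟩
  obtain ⟨F, hF⟩ := (inferInstance : Module.Finite (MonoidAlgebra ℤ Λ) E).fg_top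
  refine ⟨F, ?_⟩
  have hst : ∀ (p : MonoidAlgebra ℤ Λ) (x : E),
      x ∈ AddSubgroup.closure {x : E | ∃ l, ∃ f ∈ F, x = γ l * f} →
      p • x ∈ AddSubgroup.closure {x : E | ∃ l, ∃ f ∈ F, x = γ l * f} := by
    intro p x hx
    induction p using MonoidAlgebra.induction_on with
    | of g =>
      rw [Algebra.smul_def, hof]
      induction hx using AddSubgroup.closure_induction with
      | mem x hx =>
        obtain ⟨l, s, hs, rfl⟩ := hx
        apply AddSubgroup.subset_closure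
        exact ⟨g * l, s, hs, by rw [map_mul, mul_assoc]⟩
      | zero => rw [mul_zero]; exact AddSubgroup.zero_mem _
      | add x y _ _ hx hy => rw [mul_add]; exact AddSubgroup.add_mem _ hx hy
      | neg x _ hx => rw [mul_neg]; exact AddSubgroup.neg_mem _ hx
    | add a b ha hb => rw [add_smul]; exact AddSubgroup.add_mem _ ha hb
    | smul r p hp =>
      rw [smul_assoc]
      exact AddSubgroup.zsmul_mem _ hp r
  rw [eq_top_iff]
  intro e _
  have he : e ∈ Submodule.span (MonoidAlgebra ℤ Λ) (F : Set E) := by rw [hF]; trivial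
  induction he using Submodule.span_induction with
  | mem x hx => exact AddSubgroup.subset_closure ⟨1, x, hx, by rw [map_one, one_mul]⟩
  | zero => exact AddSubgroup.zero_mem _
  | add x y _ _ hx hy => exact AddSubgroup.add_mem _ (hx trivial) (hy trivial)
  | smul a x _ hx => exact hst a x (hx trivial)


/-- conjugation -/
noncomputable def cj {N : Type} [AddCommGroup N] (g : N ≃ₗ[ℤ] N) : Module.End ℤ N ≃+* Module.End ℤ N :=
  g.conjRingEquiv

theorem cj_apply {N : Type} [AddCommGroup N] (g : N ≃ₗ[ℤ] N) (f : Module.End ℤ N) (n : N) :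
    cj g f n = g (f (g⁻¹ n)) := rfl

theorem cj_mul {N : Type} [AddCommGroup N] (g h : N ≃ₗ[ℤ] N) (f : Module.End ℤ N) :
    cj (g * h) f = cj g (cj h f) := by
  ext n
  rw [cj_apply, cj_apply, cj_apply, mul_inv_rev]
  rfl

theorem cj_one {N : Type} [AddCommGroup N] (f : Module.End ℤ N) :
    cj 1 f = f := by
  ext n
  rw [cj_apply, inv_one]
  rfl

/-- the underlying endomorphism -/
def en {N : Type} [AddCommGroup N] : (N ≃ₗ[ℤ] N) →* Module.End ℤ N where
  toFun g := (g : N →ₗ[ℤ] N)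
  map_one' := rfl
  map_mul' _ _ := rfl

theorem en_inj {N : Type} [AddCommGroup N] : Function.Injective (en (N := N)) := by
  intro a b h
  ext n
  exact congrArg (fun f : Module.End ℤ N => f n) h

theorem cj_en {N : Type} [AddCommGroup N] (g h : N ≃ₗ[ℤ] N) : cj g (en h) = en (g * h * g⁻¹) := by
  ext n
  rfl

theorem em_nilc : S_NILC := by
  intro hMK hNIL N Λ _ _ _ c β t htβ hβc htc htc' hS A₁ A₂ u hle hfi hB hT huadd huc huβ hut hA₂ hnf
  classical
  -- the values
  have hu0 : u 0 = 1 := by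
    have := huadd 0 A₁.zero_mem 0 A₁.zero_mem
    rw [add_zero] at this
    exact (left_eq_mul.1 this)
  let X : Set (Module.End ℤ N) := {x | (∃ l, x = en (c l)) ∨ ∃ a ∈ A₁, x = en (u a)}
  have hcomm : ∀ x ∈ X, ∀ y ∈ X, x * y = y * x := by
    rintro _ (⟨l, rfl⟩ | ⟨a, ha, rfl⟩) _ (⟨l', rfl⟩ | ⟨a', ha', rfl⟩)
    · rw [← map_mul, ← map_mul, ← map_mul, ← map_mul, mul_comm]
    · rw [← map_mul, ← map_mul, huc a' ha']
    · rw [← map_mul, ← map_mul, huc a ha]
    · rw [← map_mul, ← map_mul, ← huadd a ha a' ha', ← huadd a' ha' a ha, add_comm]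
  let _ : CommRing (Subring.closure X) := Subring.closureCommRingOfComm hcomm
  -- conjugation preserves the ring
  have hst : ∀ g : N ≃ₗ[ℤ] N, (∀ x ∈ X, cj g x ∈ X) → ∀ x ∈ Subring.closure X, cj g x ∈ Subring.closure X := by
    intro g hg x hx
    have h1 : Subring.closure X ≤ (Subring.closure X).comap (cj g : Module.End ℤ N →+* Module.End ℤ N) := by
      rw [Subring.closure_le]
      intro x hx
      exact Subring.subset_closure (hg x hx)
    exact h1 hx
  have hgβ : ∀ b, ∀ x ∈ X, cj (β b) x ∈ X := by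
    rintro b _ (⟨l, rfl⟩ | ⟨a, ha, rfl⟩)
    · obtain ⟨l', hl'⟩ := hβc b l
      exact Or.inl ⟨l', by rw [cj_en, hl']⟩
    · exact Or.inr ⟨mB b a, hB b a ha, by rw [cj_en, huβ b a ha]⟩
  have hgt : ∀ x ∈ X, cj t x ∈ X := by
    rintro _ (⟨l, rfl⟩ | ⟨a, ha, rfl⟩)
    · obtain ⟨l', hl'⟩ := htc l
      exact Or.inl ⟨l', by rw [cj_en, hl']⟩
    · exact Or.inr ⟨tA a, (hT a).1 ha, by rw [cj_en, hut a ha]⟩
  have hgt' : ∀ x ∈ X, cj t⁻¹ x ∈ X := by
    rintro _ (⟨l, rfl⟩ | ⟨a, ha, rfl⟩)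
    · obtain ⟨l', hl'⟩ := htc' l
      exact Or.inl ⟨l', by rw [cj_en, inv_inv, hl']⟩
    · have h1 : tA⁻¹ a ∈ A₁ := by
        rw [hT]
        have : tA (tA⁻¹ a) = a := tA.apply_symm_apply a
        rw [this]
        exact ha
      refine Or.inr ⟨tA⁻¹ a, h1, ?_⟩
      rw [cj_en, inv_inv]
      have h2 := hut (tA⁻¹ a) h1
      have h3 : tA (tA⁻¹ a) = a := tA.apply_symm_apply a
      rw [h3] at h2
      rw [← h2]
      congr 1
      group
  have hXβ : ∀ b (x : Subring.closure X), cj (β b) x ∈ Subring.closure X := fun b x =>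
    hst (β b) (hgβ b) x x.2
  have hXt : ∀ (x : Subring.closure X), cj t x ∈ Subring.closure X := fun x => hst t hgt x x.2
  have hXt' : ∀ (x : Subring.closure X), cj t⁻¹ x ∈ Subring.closure X := fun x => hst t⁻¹ hgt' x x.2
  let β' : B →* (Subring.closure X ≃+* Subring.closure X) :=
    { toFun := fun b =>
        { toFun := fun x => ⟨cj (β b) x, hXβ b x⟩
          invFun := fun x => ⟨cj (β b⁻¹) x, hXβ b⁻¹ x⟩
          left_inv := fun x => by
            apply Subtype.ext
            show cj (β b⁻¹) (cj (β b) x) = x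
            rw [← cj_mul, ← map_mul, inv_mul_cancel, map_one, cj_one]
          right_inv := fun x => by
            apply Subtype.ext
            show cj (β b) (cj (β b⁻¹) x) = x
            rw [← cj_mul, ← map_mul, mul_inv_cancel, map_one, cj_one]
          map_mul' := fun x y => Subtype.ext (map_mul (cj (β b)) (x : Module.End ℤ N) y)
          map_add' := fun x y => Subtype.ext (map_add (cj (β b)) (x : Module.End ℤ N) y) }
      map_one' := by
        ext1 x
        apply Subtype.ext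
        show cj (β 1) x = x
        rw [map_one, cj_one]
      map_mul' := fun a b => by
        ext1 x
        apply Subtype.ext
        show cj (β (a * b)) x = cj (β a) (cj (β b) x)
        rw [map_mul, cj_mul] }
  let t' : Subring.closure X ≃+* Subring.closure X :=
    { toFun := fun x => ⟨cj t x, hXt x⟩
      invFun := fun x => ⟨cj t⁻¹ x, hXt' x⟩
      left_inv := fun x => by
        apply Subtype.ext
        show cj t⁻¹ (cj t x) = x
        rw [← cj_mul, inv_mul_cancel, cj_one]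
      right_inv := fun x => by
        apply Subtype.ext
        show cj t (cj t⁻¹ x) = x
        rw [← cj_mul, mul_inv_cancel, cj_one]
      map_mul' := fun x y => Subtype.ext (map_mul (cj t) (x : Module.End ℤ N) y)
      map_add' := fun x y => Subtype.ext (map_add (cj t) (x : Module.End ℤ N) y) }
  let γ : Λ →* Subring.closure X :=
    { toFun := fun l => ⟨en (c l), Subring.subset_closure (Or.inl ⟨l, rfl⟩)⟩
      map_one' := by
        apply Subtype.ext
        show en (c 1) = 1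
        rw [map_one, map_one]
      map_mul' := fun a b => by
        apply Subtype.ext
        show en (c (a * b)) = en (c a) * en (c b)
        rw [map_mul, map_mul] }
  obtain ⟨S, hS⟩ := hS
  obtain ⟨hnoe, F, hF⟩ := n1 (Subring.closure X) Λ N (Subring.closure X).subtype
    Subtype.val_injective γ S hS
  let v : KK → Subring.closure X := fun a =>
    if ha : a ∈ A₁ then ⟨en (u a), Subring.subset_closure (Or.inr ⟨a, ha, rfl⟩)⟩ else 1
  have hv : ∀ a ∈ A₁, (v a : Module.End ℤ N) = en (u a) := by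
    intro a ha
    show ((if ha : a ∈ A₁ then _ else _ : Subring.closure X) : Module.End ℤ N) = _
    rw [dif_pos ha]
  refine core hMK hNIL (Subring.closure X) Λ γ F hF β' t' ?_ ?_ ?_ ?_ A₁ A₂ v hle hfi hB hT ?_ ?_ ?_ ?_ ?_ hnf
  · intro b
    rw [mul_inv_eq_iff_eq_mul]
    ext1 x
    apply Subtype.ext
    show cj t (cj (β b) x) = cj (β (th b)) (cj t x)
    rw [← cj_mul, ← cj_mul, ← htβ b]
    congr 2
    group
  · intro b l
    obtain ⟨l', hl'⟩ := hβc b l
    refine ⟨l', ?_⟩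
    apply Subtype.ext
    show cj (β b) (en (c l)) = en (c l')
    rw [cj_en, hl']
  · intro l
    obtain ⟨l', hl'⟩ := htc l
    refine ⟨l', ?_⟩
    apply Subtype.ext
    show cj t (en (c l)) = en (c l')
    rw [cj_en, hl']
  · intro l
    obtain ⟨l', hl'⟩ := htc' l
    refine ⟨l', ?_⟩
    apply Subtype.ext
    show cj t⁻¹ (en (c l)) = en (c l')
    rw [cj_en, inv_inv, hl']
  · intro a ha a' ha'
    apply Subtype.ext
    show (v (a + a') : Module.End ℤ N) = (v a : Module.End ℤ N) * (v a' : Module.End ℤ N)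
    rw [hv _ ha, hv _ ha', hv _ (A₁.add_mem ha ha'), huadd a ha a' ha', map_mul]
  · apply Subtype.ext
    rw [hv 0 A₁.zero_mem, hu0, map_one]
    rfl
  · intro b a ha
    apply Subtype.ext
    show cj (β b) (v a : Module.End ℤ N) = (v (mB b a) : Module.End ℤ N)
    rw [hv a ha, hv _ (hB b a ha), cj_en, huβ b a ha]
  · intro a ha
    apply Subtype.ext
    show cj t (v a : Module.End ℤ N) = (v (tA a) : Module.End ℤ N)
    rw [hv a ha, hv _ ((hT a).1 ha), cj_en, hut a ha]
  · intro a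
    rw [hA₂]
    constructor
    · rintro ⟨ha, h⟩
      refine ⟨ha, ?_⟩
      apply Subtype.ext
      rw [hv a ha, h, map_one]
      rfl
    · rintro ⟨ha, h⟩
      refine ⟨ha, ?_⟩
      apply en_inj
      rw [← hv a ha, h, map_one]
      rfl

end Pool.Agent.H722.EMN

namespace Pool.Agent.H722

theorem em_nilc : Pool.Agent.H316.EM.S_NILC := EMN.em_nilc

end Pool.Agent.H722
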