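import Pool.Agent.H867.FT.Gen5

/-!
# `K = K^p L` implies that `K / L` is separable (task FTU SEP of helper867)
-/

set_option autoImplicit false

namespace Pool.Agent.H722.FT867SEP

open Pool.Agent.H867.FT

/-- A subfield which contains the `p`-th powers and `L` is everything. -/
theorem step (p : ℕ) [Fact p.Prime] (L K : Type) [Field L] [Field K] [CharP K p] [Algebra L K]
    (h : IntermediateField.adjoin (frobenius K p).fieldRange (Set.range (algebraMap L K)) = ⊤)
    (T : Subfield K) (h1 : ∀ y : K, y ^ p ∈ T) (h2 : ∀ l : L, algebraMap L K l ∈ T) (x : K) :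
    x ∈ T := by
  have h3 : ∀ a : (frobenius K p).fieldRange, algebraMap (frobenius K p).fieldRange K a ∈ T := by
    rintro ⟨a, y, hy⟩
    have h4 : algebraMap (frobenius K p).fieldRange K ⟨a, y, hy⟩ = y ^ p := by
      show a = y ^ p
      rw [← hy, frobenius_def]
    rw [h4]
    exact h1 y
  have h5 : IntermediateField.adjoin (frobenius K p).fieldRange (Set.range (algebraMap L K)) ≤
      T.toIntermediateField h3 := by
    rw [IntermediateField.adjoin_le_iff]
    rintro z ⟨l, rfl⟩
    exact h2 l
  rw [h] at h5
  exact h5 (IntermediateField.mem_top (x := x))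

theorem iter (p : ℕ) [Fact p.Prime] (L K : Type) [Field L] [Field K] [CharP K p] [Algebra L K]
    (h : IntermediateField.adjoin (frobenius K p).fieldRange (Set.range (algebraMap L K)) = ⊤)
    (n : ℕ) : ∀ T : Subfield K, (∀ y : K, y ^ p ^ n ∈ T) → (∀ l : L, algebraMap L K l ∈ T) →
    ∀ x : K, x ∈ T := by
  induction n with
  | zero =>
    intro T h1 _ x
    have := h1 x
    rwa [pow_zero, pow_one] at this
  | succ n ih =>
    intro T h1 h2
    refine step p L K h T (fun y => ?_) h2
    have h3 := ih (T.comap (frobenius K p)) (fun z => ?_) (fun l => ?_) y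
    · rw [Subfield.mem_comap, frobenius_def] at h3
      exact h3
    · rw [Subfield.mem_comap, frobenius_def, ← pow_mul, ← pow_succ]
      exact h1 z
    · rw [Subfield.mem_comap, frobenius_def, ← map_pow]
      exact h2 _

theorem sep : S_SEP := by
  intro p _ L K _ _ _ _ _ h
  have hpL : CharP L p := (RingHom.charP_iff (algebraMap L K) (algebraMap L K).injective p).2
    inferInstance
  have hE : ExpChar (separableClosure L K) p := by
    have : CharP (separableClosure L K) p :=
      (RingHom.charP_iff (algebraMap (separableClosure L K) K)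
        (algebraMap (separableClosure L K) K).injective p).2 inferInstance
    exact ExpChar.prime (Fact.out)
  have h1 : IsPurelyInseparable.HasExponent (separableClosure L K) K := inferInstance
  rw [IsPurelyInseparable.hasExponent_iff' (separableClosure L K) K p] at h1
  obtain ⟨n, hn⟩ := h1
  rw [← separableClosure.eq_top_iff]
  rw [eq_top_iff]
  intro x _
  refine iter p L K h n (separableClosure L K).toSubfield (fun y => ?_) (fun l => ?_) x
  · obtain ⟨z, hz⟩ := hn y
    rw [← hz]
    exact z.2
  · exact (separableClosure L K).algebraMap_mem l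

end Pool.Agent.H722.FT867SEP
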