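import Pool.Agent.H812.SO.Stm

/-!
# The derivatives of the Bessel functions (statement `S_DER` of project SO)

The proof follows `Pool/Agent/H264/SfJ1Z.lean` (the case `m = 0`).
-/

set_option autoImplicit false

namespace Pool.Agent.H722.SoDER

open Pool.Agent.H812.SO Pool.Agent.N229.SC Filter Topology Set

/-- the bound for the terms and their derivatives -/
noncomputable def bd (A : ℝ) (m k : ℕ) : ℝ :=
  (max 1 (A / 2)) ^ m * (((max 1 (A / 2)) ^ 2) ^ k / k.factorial)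

theorem bd_summable (A : ℝ) (m : ℕ) : Summable (bd A m) :=
  (Real.summable_pow_div_factorial _).mul_left _

theorem abs_pow_le {A ρ : ℝ} (hρ : |ρ| < A) {i m k : ℕ} (hi : i ≤ 2 * k + m) :
    |ρ / 2| ^ i ≤ (max 1 (A / 2)) ^ m * ((max 1 (A / 2)) ^ 2) ^ k := by
  have h1 : |ρ / 2| ≤ max 1 (A / 2) := by
    refine le_trans ?_ (le_max_right _ _)
    rw [abs_div, abs_of_pos (by norm_num : (0:ℝ) < 2)]
    linarith
  have h2 : (1 : ℝ) ≤ max 1 (A / 2) := le_max_left _ _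
  calc |ρ / 2| ^ i ≤ (max 1 (A / 2)) ^ i := pow_le_pow_left₀ (abs_nonneg _) h1 i
    _ ≤ (max 1 (A / 2)) ^ (2 * k + m) := pow_le_pow_right₀ h2 hi
    _ = (max 1 (A / 2)) ^ m * ((max 1 (A / 2)) ^ 2) ^ k := by
        rw [← pow_mul, ← pow_add]
        congr 1
        omega

/-- terms of the series -/
noncomputable def tm (m k : ℕ) (ρ : ℝ) : ℝ :=
  (-1) ^ k * (ρ / 2) ^ (2 * k + m) / (k.factorial * (k + m).factorial)

/-- their derivatives -/
noncomputable def dm (m k : ℕ) (ρ : ℝ) : ℝ :=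
  (-1) ^ k * (((2 * k + m : ℕ) : ℝ) * (ρ / 2) ^ (2 * k + m - 1) * (1 / 2)) /
    (k.factorial * (k + m).factorial)

theorem tm_deriv (m k : ℕ) (ρ : ℝ) : HasDerivAt (tm m k) (dm m k ρ) ρ := by
  have h1 : HasDerivAt (fun x : ℝ => x / 2) (1 / 2) ρ := (hasDerivAt_id ρ).div_const 2
  exact ((h1.pow (2 * k + m)).const_mul ((-1 : ℝ) ^ k)).div_const
    ((k.factorial : ℝ) * (k + m).factorial)

theorem fac_pos (k m : ℕ) : (0 : ℝ) < k.factorial * (k + m).factorial := by positivity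

theorem tm_le {A ρ : ℝ} (hρ : |ρ| < A) (m k : ℕ) : ‖tm m k ρ‖ ≤ bd A m k := by
  unfold tm bd
  rw [Real.norm_eq_abs, abs_div, abs_mul, abs_pow, abs_neg, abs_one, one_pow, one_mul,
    abs_pow, abs_of_pos (fac_pos k m), ← mul_div_assoc]
  have h1 := abs_pow_le hρ (i := 2 * k + m) (m := m) (k := k) le_rfl
  have hf : (0 : ℝ) < k.factorial := by positivity
  have hf2 : (1 : ℝ) ≤ (k + m).factorial := by exact_mod_cast Nat.factorial_pos (k + m)
  have hM : 0 ≤ (max 1 (A / 2)) ^ m * ((max 1 (A / 2)) ^ 2) ^ k := by positivity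
  apply div_le_div₀ hM h1 hf
  nlinarith

theorem dm_le {A ρ : ℝ} (hρ : |ρ| < A) (m k : ℕ) : ‖dm m k ρ‖ ≤ bd A m k := by
  unfold dm bd
  rw [Real.norm_eq_abs, abs_div, abs_mul, abs_mul, abs_mul, abs_pow, abs_neg, abs_one, one_pow,
    one_mul, abs_pow, Nat.abs_cast, abs_of_pos (fac_pos k m),
    abs_of_pos (by norm_num : (0 : ℝ) < 1 / 2), ← mul_div_assoc ((max 1 (A / 2)) ^ m)]
  have h1 := abs_pow_le hρ (i := 2 * k + m - 1) (m := m) (k := k) (by omega)
  have hf : (0 : ℝ) < k.factorial := by positivity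
  have hf2 : ((k + m : ℕ) : ℝ) ≤ (k + m).factorial := by
    exact_mod_cast Nat.self_le_factorial (k + m)
  have hM : 0 ≤ (max 1 (A / 2)) ^ m * ((max 1 (A / 2)) ^ 2) ^ k := by positivity
  have h2 : ((2 * k + m : ℕ) : ℝ) * (1 / 2) ≤ (k + m).factorial := by
    refine le_trans ?_ hf2
    push_cast
    have : (0 : ℝ) ≤ m := Nat.cast_nonneg m
    linarith
  rw [div_le_div_iff₀ (fac_pos k m) hf]
  calc ((2 * k + m : ℕ) : ℝ) * |ρ / 2| ^ (2 * k + m - 1) * (1 / 2) * k.factorial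
      = (((2 * k + m : ℕ) : ℝ) * (1 / 2)) * |ρ / 2| ^ (2 * k + m - 1) * k.factorial := by ring
    _ ≤ ((k + m).factorial * ((max 1 (A / 2)) ^ m * ((max 1 (A / 2)) ^ 2) ^ k)) * k.factorial := by
        apply mul_le_mul_of_nonneg_right _ hf.le
        exact mul_le_mul h2 h1 (by positivity) (by positivity)
    _ = (max 1 (A / 2)) ^ m * ((max 1 (A / 2)) ^ 2) ^ k * (k.factorial * (k + m).factorial) := by
        ring

theorem tm_summable (m : ℕ) (x : ℝ) : Summable fun k => tm m k x :=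
  Summable.of_norm_bounded (bd_summable (|x| + 1) m) fun k => tm_le (by linarith) m k

theorem dm_summable (m : ℕ) (x : ℝ) : Summable fun k => dm m k x :=
  Summable.of_norm_bounded (bd_summable (|x| + 1) m) fun k => dm_le (by linarith) m k

theorem Fb_eq (m : ℕ) (x : ℝ) : Fb x m = ∑' k, tm m k x := rfl

theorem Fb_deriv (m : ℕ) (ρ : ℝ) : HasDerivAt (fun x => Fb x m) (∑' k, dm m k ρ) ρ := by
  have hρ : |ρ| < |ρ| + 1 := by linarith
  have hmem : ∀ x, x ∈ Metric.ball (0:ℝ) (|ρ| + 1) ↔ |x| < |ρ| + 1 := by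
    intro x
    rw [Metric.mem_ball, dist_zero_right, Real.norm_eq_abs]
  exact hasDerivAt_tsum_of_isPreconnected (bd_summable (|ρ| + 1) m)
    (Metric.isOpen_ball : IsOpen (Metric.ball (0:ℝ) (|ρ| + 1))) (convex_ball _ _).isPreconnected
    (fun k y _ => tm_deriv m k y) (fun k y hy => dm_le ((hmem y).1 hy) m k)
    (Metric.mem_ball_self (by positivity)) (tm_summable m 0) ((hmem ρ).2 hρ)

theorem dm_eq (m k : ℕ) (x : ℝ) (hx : x ≠ 0) :
    dm m k x = (((2 * k + m : ℕ) : ℝ) / x) * tm m k x := by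
  unfold dm tm
  rcases Nat.eq_zero_or_pos (2 * k + m) with h | h
  · rw [h]
    simp
  · obtain ⟨j, hj⟩ : ∃ j, 2 * k + m = j + 1 := ⟨2 * k + m - 1, by omega⟩
    rw [hj, Nat.add_sub_cancel, pow_succ]
    field_simp

theorem rec_B (m k : ℕ) (x : ℝ) (hx : x ≠ 0) :
    dm (m + 1) k x = tm m k x - ((m : ℝ) + 1) / x * tm (m + 1) k x := by
  rw [dm_eq _ _ _ hx]
  have e : tm m k x = (2 * ((k : ℝ) + m + 1) / x) * tm (m + 1) k x := by
    unfold tm
    have e1 : 2 * k + (m + 1) = 2 * k + m + 1 := by omega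
    have e2 : k + (m + 1) = (k + m) + 1 := by omega
    rw [e1, e2, pow_succ, Nat.factorial_succ]
    have hf : (k.factorial : ℝ) ≠ 0 := by positivity
    have hf2 : ((k + m).factorial : ℝ) ≠ 0 := by positivity
    have hk : (k : ℝ) + m + 1 ≠ 0 := by positivity
    push_cast
    field_simp
  rw [e]
  push_cast
  ring

theorem rec_A0 (m : ℕ) (x : ℝ) (hx : x ≠ 0) :
    dm m 0 x - (m : ℝ) / x * tm m 0 x = 0 := by
  rw [dm_eq _ _ _ hx]
  push_cast
  ring

theorem rec_A (m k : ℕ) (x : ℝ) (hx : x ≠ 0) :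
    dm m (k + 1) x - (m : ℝ) / x * tm m (k + 1) x = -tm (m + 1) k x := by
  rw [dm_eq _ _ _ hx]
  have e : tm (m + 1) k x = -((2 * ((k : ℝ) + 1) / x) * tm m (k + 1) x) := by
    unfold tm
    have e1 : 2 * (k + 1) + m = 2 * k + (m + 1) + 1 := by omega
    have e2 : k + 1 + m = k + (m + 1) := by omega
    rw [e1, e2, pow_succ (x / 2) (2 * k + (m + 1)), pow_succ (-1 : ℝ) k, Nat.factorial_succ k]
    have hf : (k.factorial : ℝ) ≠ 0 := by positivity
    have hf2 : ((k + (m + 1)).factorial : ℝ) ≠ 0 := by positivity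
    have hk : (k : ℝ) + 1 ≠ 0 := by positivity
    push_cast
    field_simp
  rw [e]
  push_cast
  ring

theorem sum_B (m : ℕ) (x : ℝ) (hx : x ≠ 0) :
    ∑' k, dm (m + 1) k x = Fb x m - ((m : ℝ) + 1) / x * Fb x (m + 1) := by
  rw [Fb_eq, Fb_eq, ← tsum_mul_left, ← (tm_summable m x).tsum_sub ((tm_summable (m + 1) x).mul_left _)]
  exact tsum_congr fun k => rec_B m k x hx

theorem sum_A (m : ℕ) (x : ℝ) (hx : x ≠ 0) :
    ∑' k, dm m k x = (m : ℝ) / x * Fb x m - Fb x (m + 1) := by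
  have h1 : Summable fun k => (m : ℝ) / x * tm m k x := (tm_summable m x).mul_left _
  have h2 : Summable fun k => dm m k x - (m : ℝ) / x * tm m k x := (dm_summable m x).sub h1
  have h3 : ∑' k, (dm m k x - (m : ℝ) / x * tm m k x) = -Fb x (m + 1) := by
    rw [h2.tsum_eq_zero_add, rec_A0 m x hx, zero_add, Fb_eq, ← tsum_neg]
    exact tsum_congr fun k => rec_A m k x hx
  have h4 : ∑' k, (dm m k x - (m : ℝ) / x * tm m k x) =
      ∑' k, dm m k x - (m : ℝ) / x * Fb x m := by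
    rw [(dm_summable m x).tsum_sub h1, tsum_mul_left, Fb_eq]
  linarith

theorem proof_DER : S_DER := by
  intro m x hx
  refine ⟨?_, ?_⟩
  · have h := Fb_deriv m x
    rw [sum_A m x hx.ne'] at h
    exact h
  · have h := Fb_deriv (m + 1) x
    rw [sum_B m x hx.ne'] at h
    exact h

end Pool.Agent.H722.SoDER
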